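import Pool.Agent.H48.KP.M2b

/-! Near-field consequences of the quadrature inequality: degrees four and five.
Module M2 of the proof of MP_6cc408_an. -/

set_option autoImplicit false

namespace Pool.Agent.H48.KP

open Polynomial Real Set Filter Topology Pool.Agent.H85.KP

theorem nf4 (hTR : TargetTR) (hTN : TargetTN) : TargetNF4 := by
  intro p hg ε hε hε'
  have hπ := pi_pos
  have hπ1 := pi_gt_d4
  have hπ2 := pi_lt_d4
  by_cases h6 : ε ≤ π / 6
  · refine (near_even hTR hTN (by norm_num) ⟨2, rfl⟩ hg hε ?_).trans (neg_re_le _)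
    push_cast
    norm_num
    exact h6
  push Not at h6
  have hR : RN 4 = 1 / 3 := by
    rw [RN_eq]
    push_cast
    rw [show 2 * π / (4 + 2) = π / 3 by ring, cos_pi_div_three]
    norm_num
  have hcε : 0 < cos ε := cos_pos_of_mem_Ioo ⟨by linarith, by linarith⟩
  have hBt : ∀ t ∈ Ioc 0 ε, 0 < sin (((2 : ℕ) + 1) * t) - 0 * sin ((2 : ℕ) * t) :=
    Bt0_pos (l := 2) (by push_cast; linarith)
  have hB : ∀ t ∈ Ioo 0 (π / 3), 0 < sin (((2 : ℕ) + 1) * t) + 0 * sin ((2 : ℕ) * t) := by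
    have := B0_pos 2
    have h3 : π / (((2 : ℕ) : ℝ) + 1) = π / 3 := by push_cast; norm_num
    rwa [h3] at this
  have h := hTN 2 0 (π / 3) ε p (by norm_num) le_rfl zero_le_one (Or.inr ⟨rfl, hg.1⟩) hg.2.1
    hg.2.2.1 (tr_of_good hTR hg) (by positivity) (by linarith) hB hε (by linarith) hBt
    (by rw [cos_pi_div_three]; linarith)
  rw [cos_pi_div_three] at h
  push_cast at h
  simp only [zero_mul, sub_zero] at h
  rw [show ((2 : ℝ) + 1) * ε = 3 * ε by ring] at h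
  set z := ev p (pt (π - ε)) with hz
  -- Cauchy-Schwarz
  have hcs : -z.re * sin (3 * ε) - z.im * cos (3 * ε) ≤ ‖z‖ := by
    have h1 : ‖z‖ ^ 2 = z.re ^ 2 + z.im ^ 2 := by
      rw [Complex.sq_norm, Complex.normSq_apply]; ring
    have h2 := sin_sq_add_cos_sq (3 * ε)
    have h3 : 0 ≤ ‖z‖ := norm_nonneg z
    refine le_trans (le_abs_self _) (abs_le_of_sq_le_sq ?_ h3)
    rw [h1]
    nlinarith [sq_nonneg (z.re * cos (3 * ε) - z.im * sin (3 * ε))]
  have hs : 0.96 ≤ sin (3 * ε) := by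
    have h1 : sin (3 * ε) = cos (3 * ε - π / 2) := by rw [cos_sub_pi_div_two]
    rw [h1]
    have h2 := cos_ge2 (x := 3 * ε - π / 2)
    have h3 : 0 ≤ 3 * ε - π / 2 := by linarith
    have h4 : 3 * ε - π / 2 ≤ 0.23 := by linarith
    nlinarith
  have hc : cos ε ≤ 0.9 := by
    have h1 := cos_le4 hε.le
    have h2 : 0.5235 ≤ ε := by linarith
    have h3 : 0.274 ≤ ε ^ 2 := by nlinarith
    have h4 : ε ^ 2 ≤ 0.36 := by nlinarith
    have h5 : ε ^ 4 = ε ^ 2 * ε ^ 2 := by ring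
    nlinarith
  rw [hR]
  refine le_trans ?_ hcs
  refine le_trans ?_ h
  rw [div_le_div_iff₀ (by norm_num) (by linarith)]
  linarith

theorem cos_27 : 0.62345 ≤ cos (2 * π / 7) := by
  have hπ := pi_pos
  have hπ2 := pi_lt_d4
  have h3 : cos 0.8976 ≤ cos (2 * π / 7) := by
    apply cos_le_cos_of_nonneg_of_le_pi (by positivity) (by linarith [pi_gt_d4])
    rw [div_le_iff₀ (by norm_num)]
    linarith
  have h4 := cos_ge6 (x := 0.8976) (by norm_num)
  norm_num at h4 h3 ⊢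
  linarith

theorem B34 (t : ℝ) : sin ((3 + 1) * t) + 1 / 4 * sin (3 * t) =
    sin t * (8 * cos t ^ 3 + cos t ^ 2 - 4 * cos t - 1 / 4) := by
  rw [show ((3 : ℝ) + 1) * t = 2 * (2 * t) by ring, sin_two_mul, sin_two_mul, cos_two_mul,
    sin_three_mul]
  have h := sin_sq_add_cos_sq t
  have h3 : sin t ^ 3 = sin t * (1 - cos t ^ 2) := by
    rw [← h]; ring
  rw [h3]; ring

theorem Bt34 (t : ℝ) : sin ((3 + 1) * t) - 1 / 4 * sin (3 * t) =
    sin t * (8 * cos t ^ 3 - cos t ^ 2 - 4 * cos t + 1 / 4) := by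
  rw [show ((3 : ℝ) + 1) * t = 2 * (2 * t) by ring, sin_two_mul, sin_two_mul, cos_two_mul,
    sin_three_mul]
  have h := sin_sq_add_cos_sq t
  have h3 : sin t ^ 3 = sin t * (1 - cos t ^ 2) := by
    rw [← h]; ring
  rw [h3]; ring

theorem At34 (t : ℝ) : cos ((3 + 1) * t) - 1 / 4 * cos (3 * t) =
    8 * cos t ^ 4 - cos t ^ 3 - 8 * cos t ^ 2 + 3 / 4 * cos t + 1 := by
  rw [show ((3 : ℝ) + 1) * t = 2 * (2 * t) by ring, cos_two_mul, cos_two_mul, cos_three_mul]
  ring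

theorem cond34 : ∀ t ∈ Ioo 0 (arccos 0.679075), 0 < sin ((3 + 1) * t) + 1 / 4 * sin (3 * t) := by
  intro t ht
  have hπ := pi_pos
  have ht0 := ht.1
  have ht1 := ht.2
  have h1 : arccos 0.679075 ≤ π := arccos_le_pi _
  rw [B34]
  have hs : 0 < sin t := sin_pos_of_pos_of_lt_pi ht0 (by linarith)
  have hc : 0.679075 < cos t := by
    have := cos_lt_cos_of_nonneg_of_le_pi ht0.le h1 ht1
    rwa [cos_arccos (by norm_num) (by norm_num)] at this
  apply mul_pos hs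
  generalize cos t = c at hc
  have h2 : 0 < c - 0.679075 := by linarith
  have h3 : 8 * c ^ 3 + c ^ 2 - 4 * c - 1 / 4 =
      8 * (c - 0.679075) ^ 3 + (24 * 0.679075 + 1) * (c - 0.679075) ^ 2 +
      (24 * 0.679075 ^ 2 + 2 * 0.679075 - 4) * (c - 0.679075) +
      (8 * 0.679075 ^ 3 + 0.679075 ^ 2 - 4 * 0.679075 - 1 / 4) := by ring
  rw [h3]
  have h4 : (0 : ℝ) < 24 * 0.679075 ^ 2 + 2 * 0.679075 - 4 := by norm_num
  have h5 : (0 : ℝ) < 8 * 0.679075 ^ 3 + 0.679075 ^ 2 - 4 * 0.679075 - 1 / 4 := by norm_num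
  positivity

theorem coef25 (hTR : TargetTR) (hLast : TargetLast) (hTN2 : TargetTN2) : TargetCoef25 := by
  intro p hg
  have h1 := hLast 5 p (by norm_num) hg
  have h2 : arccos (0.679075 : ℝ) < π := by
    have h3 : arccos (0.679075 : ℝ) < π / 2 := arccos_lt_pi_div_two.2 (by norm_num)
    linarith [pi_pos]
  have h := hTN2 3 (1 / 4) (arccos 0.679075) p (by norm_num) (by norm_num) (by norm_num) hg.1
    hg.2.1 hg.2.2.1 (tr_of_good hTR hg) (arccos_pos.2 (by norm_num)) h2 (by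
      push_cast
      exact cond34)
  rw [cos_arccos (by norm_num) (by norm_num)] at h
  have h4 := (abs_le.1 h1).2
  have h5 : (2 * 3 - 1 : ℕ) = 5 := by norm_num
  rw [h5] at h
  norm_num at h4 h ⊢
  linarith

/-- the polynomial inequality behind NF5b -/
theorem arith5 {x s β : ℝ} (hx0 : 0.9089 ≤ x) (hx1 : x ≤ 0.9394) (hs0 : 0 ≤ s)
    (hs : s ^ 2 = 1 - x ^ 2) (hβ0 : 0 ≤ β) (hβ1 : β ≤ 0.08) {cb sb : ℝ} (hcb : cb ≤ 1 - β ^ 2 / 2 +
      β ^ 4 / 24) (hsb0 : 0 ≤ sb) (hsb : sb ≤ β) :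
    0 < s * (8 * x ^ 3 - x ^ 2 - 4 * x + 1 / 4) ∧
    (cb * (s * (8 * x ^ 3 - x ^ 2 - 4 * x + 1 / 4)) -
      sb * (8 * x ^ 4 - x ^ 3 - 8 * x ^ 2 + 3 / 4 * x + 1)) * (2 * (x + 0.679075)) ≤
      3.2469 * (s * (8 * x ^ 3 - x ^ 2 - 4 * x + 1 / 4)) := by
  obtain ⟨z, hz⟩ : ∃ z, z = x - 0.9089 := ⟨_, rfl⟩
  have hz0 : 0 ≤ z := by linarith
  have hxz : x = 0.9089 + z := by linarith
  have hL0 : 0 < 0.4168 - 2.434 * (x - 0.9089) := by linarith
  have hL : 0.4168 - 2.434 * (x - 0.9089) ≤ s := by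
    by_contra hcon
    push Not at hcon
    have h1 : s ^ 2 < (0.4168 - 2.434 * (x - 0.9089)) ^ 2 := by nlinarith
    rw [hs] at h1
    nlinarith
  have hs1 : 0 < s := by linarith
  have hq : 0 < 8 * x ^ 3 - x ^ 2 - 4 * x + 1 / 4 := by
    rw [hxz]
    have : 8 * (0.9089 + z) ^ 3 - (0.9089 + z) ^ 2 - 4 * (0.9089 + z) + 1 / 4 =
      8 * z ^ 3 + (24 * 0.9089 - 1) * z ^ 2 + (24 * 0.9089 ^ 2 - 2 * 0.9089 - 4) * z +
      (8 * 0.9089 ^ 3 - 0.9089 ^ 2 - 4 * 0.9089 + 1 / 4) := by ring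
    rw [this]
    have h1 : (0 : ℝ) < 24 * 0.9089 - 1 := by norm_num
    have h2 : (0 : ℝ) < 24 * 0.9089 ^ 2 - 2 * 0.9089 - 4 := by norm_num
    have h3 : (0 : ℝ) < 8 * 0.9089 ^ 3 - 0.9089 ^ 2 - 4 * 0.9089 + 1 / 4 := by norm_num
    positivity
  set q := 8 * x ^ 3 - x ^ 2 - 4 * x + 1 / 4 with hqdef
  set A := 8 * x ^ 4 - x ^ 3 - 8 * x ^ 2 + 3 / 4 * x + 1 with hA
  set h := 2 * (x + 0.679075) with hh
  have hh0 : 0 < h := by rw [hh]; linarith
  have hh1 : h ≤ 3.23695 := by rw [hh]; linarith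
  have hsq : 0 < s * q := mul_pos hs1 hq
  refine ⟨hsq, ?_⟩
  have hb4 : β ^ 4 / 24 ≤ 0.0003 * β ^ 2 := by
    have h1 : β ^ 2 ≤ 0.0064 := by nlinarith
    have h2 : 0 ≤ β ^ 2 := by positivity
    nlinarith
  have hcb' : cb ≤ 1 - 0.4997 * β ^ 2 := by linarith
  by_cases hA0 : 0 ≤ A
  · have h1 : cb ≤ 1 := by nlinarith [sq_nonneg β]
    have h2 : cb * (s * q) ≤ 1 * (s * q) := mul_le_mul_of_nonneg_right h1 hsq.le
    have h3 : 0 ≤ sb * A := mul_nonneg hsb0 hA0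
    have h4 : cb * (s * q) - sb * A ≤ s * q := by linarith
    calc _ ≤ (s * q) * h := mul_le_mul_of_nonneg_right h4 hh0.le
      _ ≤ (s * q) * 3.2469 := mul_le_mul_of_nonneg_left (by linarith) hsq.le
      _ = _ := by ring
  · push Not at hA0
    have hx2 : x < 0.9346 := by
      by_contra hcon
      push Not at hcon
      obtain ⟨v, hv⟩ : ∃ v, v = x - 0.9346 := ⟨_, rfl⟩
      have hv0 : 0 ≤ v := by linarith
      have hxv : x = 0.9346 + v := by linarith
      have h1 : A = 8 * v ^ 4 + (32 * 0.9346 - 1) * v ^ 3 + (48 * 0.9346 ^ 2 - 3 * 0.9346 - 8) * v ^ 2 +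
          (32 * 0.9346 ^ 3 - 3 * 0.9346 ^ 2 - 16 * 0.9346 + 3 / 4) * v +
          (8 * 0.9346 ^ 4 - 0.9346 ^ 3 - 8 * 0.9346 ^ 2 + 3 / 4 * 0.9346 + 1) := by
        rw [hA, hxv]; ring
      have h2 : (0 : ℝ) < 32 * 0.9346 - 1 := by norm_num
      have h3 : (0 : ℝ) < 48 * 0.9346 ^ 2 - 3 * 0.9346 - 8 := by norm_num
      have h4 : (0 : ℝ) < 32 * 0.9346 ^ 3 - 3 * 0.9346 ^ 2 - 16 * 0.9346 + 3 / 4 := by norm_num
      have h5 : (0 : ℝ) < 8 * 0.9346 ^ 4 - 0.9346 ^ 3 - 8 * 0.9346 ^ 2 + 3 / 4 * 0.9346 + 1 := by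
        norm_num
      have h6 : 0 < A := by rw [h1]; positivity
      linarith
    set u := 3.2469 - h with hu
    have hu0 : 0.0195 ≤ u := by rw [hu, hh]; linarith
    -- the main polynomial inequality
    have hG : -A * h ≤ (0.4168 - 2.434 * (x - 0.9089)) * q * (12.5 * u + 0.03997 * h) := by
      have h1 : (0.4168 - 2.434 * (x - 0.9089)) * q * (12.5 * u + 0.03997 * h) + A * h =
          501.24340832 * z ^ 5 + 1241.200468689096 * z ^ 4 + 732.5804335498581 * z ^ 3 +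
          44.982994310858274 * z ^ 2 + 7.042058953267726 * z + 0.06475017225880728 +
          ((0.4168 - 2.434 * (x - 0.9089)) * q * (12.5 * u + 0.03997 * h) + A * h -
          (501.24340832 * z ^ 5 + 1241.200468689096 * z ^ 4 + 732.5804335498581 * z ^ 3 +
          44.982994310858274 * z ^ 2 + 7.042058953267726 * z + 0.06475017225880728)) := by ring
      have h2 : |(0.4168 - 2.434 * (x - 0.9089)) * q * (12.5 * u + 0.03997 * h) + A * h -
          (501.24340832 * z ^ 5 + 1241.200468689096 * z ^ 4 + 732.5804335498581 * z ^ 3 +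
          44.982994310858274 * z ^ 2 + 7.042058953267726 * z + 0.06475017225880728)| ≤ 0.001 := by
        rw [hu, hh, hA, hqdef, hxz]
        ring_nf
        have hz1 : z ≤ 0.0305 := by linarith
        have hz2 : z ^ 2 ≤ 1 := by nlinarith
        have hz3 : z ^ 3 ≤ 1 := by nlinarith
        have hz4 : z ^ 4 ≤ 1 := by nlinarith
        have hz5 : z ^ 5 ≤ 1 := by nlinarith
        have p2 : 0 ≤ z ^ 2 := by positivity
        have p3 : 0 ≤ z ^ 3 := by positivity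
        have p4 : 0 ≤ z ^ 4 := by positivity
        have p5 : 0 ≤ z ^ 5 := by positivity
        rw [abs_le]
        constructor <;> nlinarith
      have h3 : 0 ≤ 501.24340832 * z ^ 5 + 1241.200468689096 * z ^ 4 + 732.5804335498581 * z ^ 3 +
          44.982994310858274 * z ^ 2 + 7.042058953267726 * z := by positivity
      have h4 := (abs_le.1 h2).1
      linarith
    have hk : 0 ≤ 12.5 * u + 0.03997 * h := by positivity
    have h1 : -A * h ≤ s * q * (12.5 * u + 0.03997 * h) := by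
      refine hG.trans ?_
      apply mul_le_mul_of_nonneg_right _ hk
      exact mul_le_mul_of_nonneg_right hL hq.le
    have h2 : β * (12.5 * u + 0.03997 * h) ≤ u + 0.4997 * h * β ^ 2 := by
      have h3 : 0 ≤ (0.08 - β) * (12.5 * u - 0.4997 * h * β) := by
        apply mul_nonneg (by linarith)
        have : h * β ≤ 3.23695 * 0.08 := mul_le_mul hh1 hβ1 hβ0 (by norm_num)
        nlinarith
      have h4 : 0 ≤ h * β := mul_nonneg hh0.le hβ0
      nlinarith
    have h3 : sb * (-A * h) ≤ β * (-A * h) :=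
      mul_le_mul_of_nonneg_right hsb (mul_nonneg (by linarith) hh0.le)
    have h4 : β * (-A * h) ≤ β * (s * q * (12.5 * u + 0.03997 * h)) :=
      mul_le_mul_of_nonneg_left h1 hβ0
    have h5 : s * q * (β * (12.5 * u + 0.03997 * h)) ≤ s * q * (u + 0.4997 * h * β ^ 2) :=
      mul_le_mul_of_nonneg_left h2 hsq.le
    have h6 : cb * (s * q * h) ≤ (1 - 0.4997 * β ^ 2) * (s * q * h) :=
      mul_le_mul_of_nonneg_right hcb' (by positivity)
    calc (cb * (s * q) - sb * A) * h = cb * (s * q * h) + sb * (-A * h) := by ring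
      _ ≤ (1 - 0.4997 * β ^ 2) * (s * q * h) + s * q * (u + 0.4997 * h * β ^ 2) := by linarith
      _ = s * q * (h + u) := by ring
      _ = _ := by rw [hu]; ring

theorem nf5b (hTR : TargetTR) (hTN : TargetTN) : TargetNF5b := by
  intro p r β ε hg hε0 hε1 hβ0 hβ1 hr hre him
  have hπ := pi_pos
  have hπ1 := pi_gt_d4
  have hε : 0 < ε := by linarith
  have h2 : arccos (0.679075 : ℝ) < π := by
    have h3 : arccos (0.679075 : ℝ) < π / 2 := arccos_lt_pi_div_two.2 (by norm_num)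
    linarith [pi_pos]
  have hx0 : 0.9089 ≤ cos ε := by
    have h1 : cos 0.43 ≤ cos ε := cos_le_cos_of_nonneg_of_le_pi hε.le (by linarith) hε1
    have h3 := cos_ge6 (x := 0.43) (by norm_num)
    norm_num at h1 h3 ⊢
    linarith
  have hx1 : cos ε ≤ 0.9394 := by
    have h1 : cos ε ≤ cos 0.35 := cos_le_cos_of_nonneg_of_le_pi (by norm_num) (by linarith) hε0
    have h3 := cos_le4 (x := 0.35) (by norm_num)
    norm_num at h1 h3 ⊢
    linarith
  have hBt : ∀ t ∈ Ioc 0 ε, 0 < sin ((3 + 1) * t) - 1 / 4 * sin (3 * t) := by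
    intro t ht
    rw [Bt34]
    have ht0 := ht.1
    have hs : 0 < sin t := sin_pos_of_pos_of_lt_pi ht0 (by linarith [ht.2])
    have hc : 0.9089 ≤ cos t :=
      hx0.trans (cos_le_cos_of_nonneg_of_le_pi ht0.le (by linarith) ht.2)
    apply mul_pos hs
    generalize cos t = c at hc
    have h3 : 0 ≤ c - 0.9089 := by linarith
    have h4 : 8 * c ^ 3 - c ^ 2 - 4 * c + 1 / 4 =
      8 * (c - 0.9089) ^ 3 + (24 * 0.9089 - 1) * (c - 0.9089) ^ 2 +
      (24 * 0.9089 ^ 2 - 2 * 0.9089 - 4) * (c - 0.9089) +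
      (8 * 0.9089 ^ 3 - 0.9089 ^ 2 - 4 * 0.9089 + 1 / 4) := by ring
    rw [h4]
    have h5 : (0 : ℝ) < 24 * 0.9089 - 1 := by norm_num
    have h6 : (0 : ℝ) < 24 * 0.9089 ^ 2 - 2 * 0.9089 - 4 := by norm_num
    have h7 : (0 : ℝ) < 8 * 0.9089 ^ 3 - 0.9089 ^ 2 - 4 * 0.9089 + 1 / 4 := by norm_num
    positivity
  have h := hTN 3 (1 / 4) (arccos 0.679075) ε p (by norm_num) (by norm_num) (by norm_num)
    (Or.inl hg.1) hg.2.1 hg.2.2.1 (tr_of_good hTR hg) (arccos_pos.2 (by norm_num)) h2 (by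
      push_cast
      exact cond34) hε (by linarith) (by
      push_cast
      exact hBt) (by
      rw [cos_arccos (by norm_num) (by norm_num)]
      linarith)
  push_cast at h
  rw [cos_arccos (by norm_num) (by norm_num), Bt34, At34, hre, him] at h
  have hss := sin_sq_add_cos_sq ε
  have hs0 : 0 ≤ sin ε := sin_nonneg_of_nonneg_of_le_pi hε.le (by linarith)
  obtain ⟨hsq, hmain⟩ := arith5 (x := cos ε) (s := sin ε) (β := β) hx0 hx1 hs0 (by linarith) hβ0
    hβ1 (cos_le4 hβ0) (sin_nonneg_of_nonneg_of_le_pi hβ0 (by linarith)) (sin_le hβ0)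
  have hR : RN 5 ≤ 1 / 3.2469 := by
    rw [RN_eq]
    push_cast
    rw [show (5 : ℝ) + 2 = 7 by norm_num]
    apply one_div_le_one_div_of_le (by norm_num)
    have := cos_27
    linarith
  refine hR.trans ?_
  rw [div_le_iff₀ (by linarith)] at h
  have h3 : sin ε * (8 * cos ε ^ 3 - cos ε ^ 2 - 4 * cos ε + 1 / 4) ≤
      r * (3.2469 * (sin ε * (8 * cos ε ^ 3 - cos ε ^ 2 - 4 * cos ε + 1 / 4))) := by
    refine h.trans ?_
    have := mul_le_mul_of_nonneg_left hmain hr.le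
    calc _ = r * ((cos β * (sin ε * (8 * cos ε ^ 3 - cos ε ^ 2 - 4 * cos ε + 1 / 4)) -
        sin β * (8 * cos ε ^ 4 - cos ε ^ 3 - 8 * cos ε ^ 2 + 3 / 4 * cos ε + 1)) *
        (2 * (cos ε + 0.679075))) := by ring
      _ ≤ _ := this
  rw [div_le_iff₀ (by norm_num)]
  have h4 : 1 * (sin ε * (8 * cos ε ^ 3 - cos ε ^ 2 - 4 * cos ε + 1 / 4)) ≤
      (r * 3.2469) * (sin ε * (8 * cos ε ^ 3 - cos ε ^ 2 - 4 * cos ε + 1 / 4)) := by linarith
  exact le_of_mul_le_mul_right h4 hsq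

end Pool.Agent.H48.KP
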