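import Pool.Agent.H48.KP.Taylor
import Pool.Agent.H85.KP.Iface

/-! Near-field consequences of the quadrature inequality: first part. -/

set_option autoImplicit false

namespace Pool.Agent.H48.KP

open Polynomial Real Set Filter Topology Pool.Agent.H85.KP

theorem tr_of_good (hTR : TargetTR) {N : ℕ} {p : ℝ[X]} (h : Good N p) : TR p :=
  fun t ht => (hTR N p h t ht).le

theorem RN_eq (N : ℕ) : RN N = 1 / (2 * (1 + cos (2 * π / ((N : ℝ) + 2)))) := by
  unfold RN
  have h : cos (2 * π / ((N : ℝ) + 2)) = 2 * cos (π / ((N : ℝ) + 2)) ^ 2 - 1 := by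
    rw [← cos_two_mul]
    congr 1
    ring
  rw [h]
  congr 1
  ring

theorem near (hTR : TargetTR) (hTN : TargetTN) {N : ℕ} {p : ℝ[X]} (hg : Good N p) {l : ℕ}
    {a τ ε : ℝ} (hl : 1 ≤ l) (ha0 : 0 ≤ a) (ha1 : a ≤ 1)
    (hdeg : N ≤ 2 * l - 1 ∨ (a = 0 ∧ N ≤ 2 * l)) (hτ : 0 < τ) (hτπ : τ < π)
    (hB : ∀ t ∈ Ioo 0 τ, 0 < sin ((l + 1) * t) + a * sin (l * t)) (hε : 0 < ε) (hεπ : ε < π)
    (hBt : ∀ t ∈ Ioc 0 ε, 0 < sin ((l + 1) * t) - a * sin (l * t)) (hcc : 0 < cos ε + cos τ)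
    (hA : 0 ≤ cos ((l + 1) * ε) - a * cos (l * ε)) :
    1 / (2 * (cos ε + cos τ)) ≤ -(ev p (pt (π - ε))).re := by
  have h := hTN l a τ ε p hl ha0 ha1 (by
    rcases hdeg with h | ⟨h1, h2⟩
    · exact Or.inl (hg.1.trans h)
    · exact Or.inr ⟨h1, hg.1.trans h2⟩) hg.2.1 hg.2.2.1 (tr_of_good hTR hg) hτ hτπ hB hε hεπ hBt hcc
  have hIm : 0 < (ev p (pt (π - ε))).im := hTR N p hg (π - ε) ⟨by linarith, by linarith⟩
  have hBp := hBt ε ⟨hε, le_rfl⟩
  have h2 : 0 ≤ (ev p (pt (π - ε))).im * (cos ((l + 1) * ε) - a * cos (l * ε)) :=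
    mul_nonneg hIm.le hA
  have h3 : (sin ((l + 1) * ε) - a * sin (l * ε)) / (2 * (cos ε + cos τ)) ≤
    -(ev p (pt (π - ε))).re * (sin ((l + 1) * ε) - a * sin (l * ε)) := by linarith
  rw [div_le_iff₀ (by positivity)] at h3
  rw [div_le_iff₀ (by positivity)]
  have h4 : 1 * (sin ((l + 1) * ε) - a * sin (l * ε)) ≤
      (-(ev p (pt (π - ε))).re * (2 * (cos ε + cos τ))) *
        (sin ((l + 1) * ε) - a * sin (l * ε)) := by linarith
  exact le_of_mul_le_mul_right h4 hBp

theorem neg_re_le (z : ℂ) : -z.re ≤ ‖z‖ := (neg_le_abs _).trans (Complex.abs_re_le_norm z)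

/-! ### sines -/

theorem sin_add_sin' (l : ℕ) (t : ℝ) :
    sin (((l : ℝ) + 1) * t) + 1 * sin (l * t) = 2 * sin ((2 * l + 1) * t / 2) * cos (t / 2) := by
  have h1 : ((l : ℝ) + 1) * t = (2 * l + 1) * t / 2 + t / 2 := by ring
  have h2 : (l : ℝ) * t = (2 * l + 1) * t / 2 - t / 2 := by ring
  rw [h1, h2, sin_add, sin_sub]
  ring

theorem sin_sub_sin' (l : ℕ) (t : ℝ) :
    sin (((l : ℝ) + 1) * t) - 1 * sin (l * t) = 2 * cos ((2 * l + 1) * t / 2) * sin (t / 2) := by
  have h1 : ((l : ℝ) + 1) * t = (2 * l + 1) * t / 2 + t / 2 := by ring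
  have h2 : (l : ℝ) * t = (2 * l + 1) * t / 2 - t / 2 := by ring
  rw [h1, h2, sin_add, sin_sub]
  ring

theorem cos_sub_cos' (l : ℕ) (t : ℝ) :
    cos (((l : ℝ) + 1) * t) - 1 * cos (l * t) = -(2 * sin ((2 * l + 1) * t / 2) * sin (t / 2)) := by
  have h1 : ((l : ℝ) + 1) * t = (2 * l + 1) * t / 2 + t / 2 := by ring
  have h2 : (l : ℝ) * t = (2 * l + 1) * t / 2 - t / 2 := by ring
  rw [h1, h2, cos_add, cos_sub]
  ring

theorem B1_pos {l : ℕ} (hl : 1 ≤ l) : ∀ t ∈ Ioo 0 (2 * π / (2 * (l : ℝ) + 1)),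
    0 < sin (((l : ℝ) + 1) * t) + 1 * sin (l * t) := by
  intro t ht
  have hl' : (1 : ℝ) ≤ l := by exact_mod_cast hl
  have h0 := ht.1
  have h1 := ht.2
  rw [lt_div_iff₀ (by positivity)] at h1
  rw [sin_add_sin']
  have h2 : 0 < sin ((2 * l + 1) * t / 2) := sin_pos_of_pos_of_lt_pi (by positivity) (by linarith)
  have h3 : 0 < cos (t / 2) := cos_pos_of_mem_Ioo ⟨by linarith [pi_pos], by nlinarith [pi_pos]⟩
  positivity

theorem B0_pos (l : ℕ) : ∀ t ∈ Ioo 0 (π / ((l : ℝ) + 1)),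
    0 < sin (((l : ℝ) + 1) * t) + 0 * sin (l * t) := by
  intro t ht
  have h0 := ht.1
  have h1 := ht.2
  rw [lt_div_iff₀ (by positivity)] at h1
  rw [zero_mul, add_zero]
  exact sin_pos_of_pos_of_lt_pi (by positivity) (by linarith)

theorem Bt0_pos {l : ℕ} {ε : ℝ} (hε : ((l : ℝ) + 1) * ε < π) : ∀ t ∈ Ioc 0 ε,
    0 < sin (((l : ℝ) + 1) * t) - 0 * sin (l * t) := by
  intro t ht
  have h0 := ht.1
  have h1 := ht.2
  rw [zero_mul, sub_zero]
  have : ((l : ℝ) + 1) * t ≤ ((l : ℝ) + 1) * ε := by gcongr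
  exact sin_pos_of_pos_of_lt_pi (by positivity) (by linarith)

/-! ### the second coefficient -/

theorem coef2 (hTR : TargetTR) (hTN2 : TargetTN2) : TargetCoef2 := by
  intro N p hN hg
  have htr := tr_of_good hTR hg
  have hπ := pi_pos
  rcases Nat.even_or_odd' N with ⟨m, hm | hm⟩
  · -- `N = 2 m`, `l = m + 1`, `a = 1`
    have hm1 : 1 ≤ m := by omega
    have hτ : 2 * π / ((N : ℝ) + 3) = 2 * π / (2 * ((m + 1 : ℕ) : ℝ) + 1) := by
      congr 1
      rw [hm]
      push_cast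
      ring
    have h := hTN2 (m + 1) 1 (2 * π / (2 * ((m + 1 : ℕ) : ℝ) + 1)) p (by omega) zero_le_one le_rfl
      (hg.1.trans (by omega)) hg.2.1 hg.2.2.1 htr (by positivity) (by
        rw [div_lt_iff₀ (by positivity)]
        push_cast
        have : (1 : ℝ) ≤ m := by exact_mod_cast hm1
        nlinarith) (B1_pos (by omega))
    have h2 : p.coeff (2 * (m + 1) - 1) = 0 :=
      Polynomial.coeff_eq_zero_of_natDegree_lt (lt_of_le_of_lt hg.1 (by omega))
    rw [h2] at h
    rw [hτ]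
    linarith
  · -- `N = 2 m + 1`, `l = m + 1`, `a = 0`
    have hm1 : 1 ≤ m := by omega
    have hτ : 2 * π / ((N : ℝ) + 3) = π / (((m + 1 : ℕ) : ℝ) + 1) := by
      rw [hm]
      push_cast
      field_simp
      ring
    have h := hTN2 (m + 1) 0 (π / (((m + 1 : ℕ) : ℝ) + 1)) p (by omega) le_rfl zero_le_one
      (hg.1.trans (by omega)) hg.2.1 hg.2.2.1 htr (by positivity) (by
        rw [div_lt_iff₀ (by positivity)]
        push_cast
        have : (1 : ℝ) ≤ m := by exact_mod_cast hm1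
        nlinarith) (B0_pos _)
    rw [hτ]
    linarith

/-! ### even degree -/

theorem near_even (hTR : TargetTR) (hTN : TargetTN) {N : ℕ} {p : ℝ[X]} (hN : 2 ≤ N)
    (he : Even N) (hg : Good N p) {ε : ℝ} (hε : 0 < ε) (hε' : ε ≤ π / ((N : ℝ) + 2)) :
    RN N ≤ -(ev p (pt (π - ε))).re := by
  obtain ⟨l, hl⟩ := he
  have hπ := pi_pos
  have hl1 : 1 ≤ l := by omega
  have hl' : (1 : ℝ) ≤ l := by exact_mod_cast hl1
  have hNl : (N : ℝ) = 2 * l := by rw [hl]; push_cast; ring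
  have hτ : 2 * π / ((N : ℝ) + 2) = π / ((l : ℝ) + 1) := by
    rw [hNl]; field_simp
  rw [RN_eq, hτ]
  rw [hNl, le_div_iff₀ (by positivity)] at hε'
  have hle : ((l : ℝ) + 1) * ε ≤ π / 2 := by nlinarith
  have hε2 : ε ≤ π / 4 := by nlinarith
  have hc1 : 0 < cos ε := cos_pos_of_mem_Ioo ⟨by linarith, by linarith⟩
  have hτ1 : π / ((l : ℝ) + 1) ≤ π / 2 := by
    apply div_le_div_of_nonneg_left hπ.le (by norm_num)
    linarith
  have hc2 : 0 ≤ cos (π / ((l : ℝ) + 1)) :=
    cos_nonneg_of_mem_Icc ⟨by have : 0 < π / ((l : ℝ) + 1) := by positivity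
                              linarith, hτ1⟩
  have h := near (l := l) (a := 0) (τ := π / ((l : ℝ) + 1)) (ε := ε) hTR hTN hg hl1 le_rfl
    zero_le_one (Or.inr ⟨rfl, by omega⟩) (by positivity) (by linarith)
    (B0_pos l) hε (by linarith) (Bt0_pos (by linarith)) (by linarith) (by
      rw [zero_mul, sub_zero]
      exact cos_nonneg_of_mem_Icc ⟨by nlinarith, by linarith⟩)
  refine le_trans ?_ h
  have hc3 : cos ε ≤ 1 := cos_le_one ε
  apply one_div_le_one_div_of_le
  · linarith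
  · linarith

theorem nfeven (hTR : TargetTR) (hTN : TargetTN) : TargetNFeven := by
  intro N p hN he hg ε hε hε'
  exact (near_even hTR hTN hN he hg hε hε').trans (neg_re_le _)

theorem continuous_ev_pt (p : ℝ[X]) : Continuous (fun ε : ℝ => ev p (pt (π - ε))) := by
  unfold ev pt
  exact (Polynomial.continuous_aeval p).comp (by fun_prop)

theorem pt_pi : pt π = -1 := by
  unfold pt
  rw [Complex.exp_pi_mul_I]

theorem nfreal (hTR : TargetTR) (hTN : TargetTN) : TargetNFreal := by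
  intro N p hN hg
  have hπ := pi_pos
  have hcont := continuous_ev_pt p
  have h0 : ev p (pt (π - 0)) = ev p (-1) := by rw [sub_zero, pt_pi]
  rcases Nat.even_or_odd' N with ⟨m, hm | hm⟩
  · -- even degree
    have hev : ∀ᶠ ε in 𝓝[>] (0 : ℝ), RN N ≤ -(ev p (pt (π - ε))).re := by
      have : Ioo (0 : ℝ) (π / ((N : ℝ) + 2)) ∈ 𝓝[>] (0 : ℝ) := Ioo_mem_nhdsGT (by positivity)
      filter_upwards [this] with ε hε
      exact near_even hTR hTN (by omega) ⟨m, by omega⟩ hg hε.1 hε.2.le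
    have ht : Tendsto (fun ε : ℝ => -(ev p (pt (π - ε))).re) (𝓝[>] 0) (𝓝 (-(ev p (-1)).re)) := by
      rw [← h0]
      exact ((Complex.continuous_re.comp hcont).neg.tendsto 0).mono_left nhdsWithin_le_nhds
    exact ge_of_tendsto ht hev
  · -- odd degree, `l = m + 1`, `a = 1`
    set l : ℕ := m + 1 with hl
    have hl1 : 1 ≤ l := by omega
    have hl' : (1 : ℝ) ≤ l := by exact_mod_cast hl1
    have hNl : (N : ℝ) + 2 = 2 * l + 1 := by rw [hm, hl]; push_cast; ring
    rw [RN_eq, hNl]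
    set τ := 2 * π / (2 * (l : ℝ) + 1) with hτ
    have hτ0 : 0 < τ := by positivity
    have hτ1 : τ ≤ 2 * π / 3 := by
      apply div_le_div_of_nonneg_left (by positivity) (by norm_num)
      linarith
    have hcτ : -(1 / 2) ≤ cos τ := by
      have h1 : cos (2 * π / 3) = -(1 / 2) := by
        rw [show 2 * π / 3 = π - π / 3 by ring, cos_pi_sub, cos_pi_div_three]
      rw [← h1]
      exact cos_le_cos_of_nonneg_of_le_pi hτ0.le (by linarith) hτ1
    have hev : ∀ᶠ ε in 𝓝[>] (0 : ℝ), cos ((2 * l + 1) * ε / 2) / (2 * (cos ε + cos τ)) ≤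
        -(ev p (pt (π - ε))).re * cos ((2 * l + 1) * ε / 2) +
          (ev p (pt (π - ε))).im * sin ((2 * l + 1) * ε / 2) := by
      have hmem : Ioo (0 : ℝ) (π / (2 * l + 1)) ∈ 𝓝[>] (0 : ℝ) := Ioo_mem_nhdsGT (by positivity)
      filter_upwards [hmem] with ε hε
      have hε0 := hε.1
      have hε1 := hε.2
      rw [lt_div_iff₀ (by positivity)] at hε1
      have hε3 : ε < π / 3 := by nlinarith
      have hcε : 1 / 2 < cos ε := by
        rw [← cos_pi_div_three]
        exact cos_lt_cos_of_nonneg_of_le_pi hε0.le (by linarith) hε3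
      have hBt : ∀ t ∈ Ioc 0 ε, 0 < sin (((l : ℝ) + 1) * t) - 1 * sin (l * t) := by
        intro t ht
        have ht0 := ht.1
        have ht1 := ht.2
        rw [sin_sub_sin']
        have h3 : (2 * (l : ℝ) + 1) * t ≤ (2 * l + 1) * ε := by gcongr
        have h1 : 0 < cos ((2 * (l : ℝ) + 1) * t / 2) :=
          cos_pos_of_mem_Ioo ⟨by have : 0 < (2 * (l : ℝ) + 1) * t := by positivity
                                 linarith, by linarith⟩
        have h2 : 0 < sin (t / 2) := sin_pos_of_pos_of_lt_pi (by linarith) (by linarith)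
        positivity
      have h := hTN l 1 τ ε p hl1 zero_le_one le_rfl (Or.inl (hg.1.trans (by omega))) hg.2.1
        hg.2.2.1 (tr_of_good hTR hg) hτ0 (by linarith) (B1_pos hl1) hε0 (by linarith) hBt
        (by linarith)
      rw [sin_sub_sin', cos_sub_cos'] at h
      have h2 : 0 < sin (ε / 2) := sin_pos_of_pos_of_lt_pi (by linarith) (by linarith)
      have h3 : (cos ((2 * l + 1) * ε / 2) / (2 * (cos ε + cos τ))) * (2 * sin (ε / 2)) ≤
        (-(ev p (pt (π - ε))).re * cos ((2 * l + 1) * ε / 2) +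
          (ev p (pt (π - ε))).im * sin ((2 * l + 1) * ε / 2)) * (2 * sin (ε / 2)) := by
        calc _ = 2 * cos ((2 * l + 1) * ε / 2) * sin (ε / 2) / (2 * (cos ε + cos τ)) := by ring
          _ ≤ _ := h
          _ = _ := by ring
      exact le_of_mul_le_mul_right h3 (by positivity)
    have ht1 : Tendsto (fun ε : ℝ => cos ((2 * l + 1) * ε / 2) / (2 * (cos ε + cos τ))) (𝓝[>] 0)
        (𝓝 (1 / (2 * (1 + cos τ)))) := by
      have hc : ContinuousAt (fun ε : ℝ => cos ((2 * l + 1) * ε / 2) / (2 * (cos ε + cos τ))) 0 := by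
        apply ContinuousAt.div
        · fun_prop
        · fun_prop
        · rw [cos_zero]
          have : 0 < 2 * (1 + cos τ) := by linarith
          exact this.ne'
      have h1 := hc.tendsto
      simp only [mul_zero, zero_div, cos_zero] at h1
      exact h1.mono_left nhdsWithin_le_nhds
    have ht2 : Tendsto (fun ε : ℝ => -(ev p (pt (π - ε))).re * cos ((2 * l + 1) * ε / 2) +
          (ev p (pt (π - ε))).im * sin ((2 * l + 1) * ε / 2)) (𝓝[>] 0)
        (𝓝 (-(ev p (-1)).re)) := by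
      have hc : Continuous (fun ε : ℝ => -(ev p (pt (π - ε))).re * cos ((2 * l + 1) * ε / 2) +
          (ev p (pt (π - ε))).im * sin ((2 * l + 1) * ε / 2)) := by
        have h1 := Complex.continuous_re.comp hcont
        have h2 := Complex.continuous_im.comp hcont
        exact (h1.neg.mul (by fun_prop)).add (h2.mul (by fun_prop))
      have h1 := hc.tendsto 0
      simp only [mul_zero, zero_div, cos_zero, sin_zero, mul_one, add_zero, h0] at h1
      exact h1.mono_left nhdsWithin_le_nhds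
    exact le_of_tendsto_of_tendsto ht1 ht2 hev

end Pool.Agent.H48.KP
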