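import Pool.Agent.H48.KP.M2a

/-! Near-field consequences of the quadrature inequality: odd degree. -/

set_option autoImplicit false

namespace Pool.Agent.H48.KP

open Polynomial Real Set Filter Topology Pool.Agent.H85.KP

/-- key positivity: `cos(lε) B(t) > 0` -/
theorem key_pos {A B C D s σ γ : ℝ} (m : ℝ) (hm : 0 < m) (hA : sin A = sin s) (hA' : cos A = -cos s)
    (hs0 : 0 < s) (hs1 : s < π / 2) (hB0 : 0 < sin B) (hB1 : 0 < cos B) (hC0 : 0 < sin C)
    (hC1 : 0 < cos C) (hD0 : 0 < sin D) (hD1 : 0 < cos D) (hσ : 0 < σ) (hγ : 0 < γ)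
    (h1 : sin B * γ ≤ cos B * σ) (h2 : m * sin D ^ 2 < s * (2 * σ * γ))
    (h3 : 2 * σ ^ 2 * sin C ≤ m * (sin D * cos D * cos C)) :
    0 < sin A * cos B * cos C * cos D + cos A * sin B * sin C * sin D := by
  have hcs : 0 < cos s := cos_pos_of_mem_Ioo ⟨by linarith, hs1⟩
  have htan : s * cos s ≤ sin s := by
    have h := le_tan hs0.le hs1
    rw [tan_eq_sin_div_cos, le_div_iff₀ hcs] at h
    exact h
  rw [hA, hA']
  -- `s cB cC cD > sB sC sD`
  have h4 : sin B * sin C * sin D < s * (cos B * cos C * cos D) := by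
    have h5 : sin B * sin C * sin D * (2 * σ * γ) ≤ 2 * σ ^ 2 * sin C * (sin D * cos B) := by
      have := mul_le_mul_of_nonneg_left h1 (show 0 ≤ 2 * σ * sin C * sin D by positivity)
      nlinarith
    have h6 : 2 * σ ^ 2 * sin C * (sin D * cos B) ≤ m * (sin D * cos D * cos C) * (sin D * cos B) :=
      mul_le_mul_of_nonneg_right h3 (by positivity)
    have h7 : m * sin D ^ 2 * (cos B * cos C * cos D) < s * (2 * σ * γ) * (cos B * cos C * cos D) :=
      mul_lt_mul_of_pos_right h2 (by positivity)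
    have h8 : sin B * sin C * sin D * (2 * σ * γ) < s * (cos B * cos C * cos D) * (2 * σ * γ) := by
      calc _ ≤ _ := h5
        _ ≤ _ := h6
        _ = m * sin D ^ 2 * (cos B * cos C * cos D) := by ring
        _ < _ := h7
        _ = _ := by ring
    exact lt_of_mul_lt_mul_right h8 (by positivity)
  have h9 : cos s * (sin B * sin C * sin D) < sin s * (cos B * cos C * cos D) := by
    calc cos s * (sin B * sin C * sin D) < cos s * (s * (cos B * cos C * cos D)) :=
          mul_lt_mul_of_pos_left h4 hcs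
      _ = (s * cos s) * (cos B * cos C * cos D) := by ring
      _ ≤ _ := mul_le_mul_of_nonneg_right htan (by positivity)
  nlinarith

theorem near_odd (hTR : TargetTR) (hTN : TargetTN) {N l : ℕ} {p : ℝ[X]} (hl : 2 ≤ l)
    (hN : N + 1 = 2 * l) (hg : Good N p) {ε : ℝ} (hε : 0 < ε) (hε' : ((l : ℝ) + 1) * ε < π / 2)
    (hkey : 4 * (π / (2 * l + 1)) ^ 2 * sin ((2 * l + 1) * ε / 2) ≤
      (2 * l + 1) * sin ε * cos ((2 * l + 1) * ε / 2)) :
    RN N ≤ -(ev p (pt (π - ε))).re := by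
  have hπ := pi_pos
  have hl' : (2 : ℝ) ≤ l := by exact_mod_cast hl
  have hNl : (N : ℝ) + 2 = 2 * l + 1 := by
    have : (N : ℝ) + 1 = 2 * l := by exact_mod_cast hN
    linarith
  rw [RN_eq, hNl]
  set φ := 2 * π / (2 * (l : ℝ) + 1) with hφ
  have hφ0 : 0 < φ := by positivity
  have hφ1 : φ < π / 2 := by
    rw [hφ, div_lt_iff₀ (by positivity)]
    nlinarith
  have hnφ : (2 * (l : ℝ) + 1) * φ = 2 * π := by rw [hφ]; field_simp
  have hεφ : ε < φ := by
    rw [hφ, lt_div_iff₀ (by positivity)]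
    nlinarith
  have hcφ : 0 < cos φ := cos_pos_of_mem_Ioo ⟨by linarith, hφ1⟩
  have hcεφ : cos φ < cos ε := cos_lt_cos_of_nonneg_of_le_pi hε.le (by linarith) hεφ
  have hcε1 : cos ε < 1 := by
    have := cos_lt_cos_of_nonneg_of_le_pi le_rfl (by linarith) hε
    rwa [cos_zero] at this
  set τ := arccos (1 + cos φ - cos ε) with hτ
  have hcτ : cos τ = 1 + cos φ - cos ε := cos_arccos (by linarith) (by linarith)
  have hτ0 : 0 < τ := arccos_pos.2 (by linarith)
  have hτφ : τ < φ := by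
    by_contra hcon
    push Not at hcon
    have := cos_le_cos_of_nonneg_of_le_pi hφ0.le (arccos_le_pi _) hcon
    rw [hcτ] at this
    linarith
  -- `a`
  have hle : (l : ℝ) * ε < π / 2 := by nlinarith
  have hcl : 0 < cos (l * ε) := cos_pos_of_mem_Ioo ⟨by
    have : 0 < (l : ℝ) * ε := by positivity
    linarith, hle⟩
  have hcl1 : 0 < cos ((l + 1) * ε) := cos_pos_of_mem_Ioo ⟨by
    have : 0 < ((l : ℝ) + 1) * ε := by positivity
    linarith, hε'⟩
  have hclle : cos ((l + 1) * ε) ≤ cos (l * ε) :=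
    cos_le_cos_of_nonneg_of_le_pi (by positivity) (by linarith) (by nlinarith)
  set a := cos ((l + 1) * ε) / cos (l * ε) with ha
  have ha0 : 0 ≤ a := by positivity
  have ha1 : a ≤ 1 := by rw [ha, div_le_one hcl]; exact hclle
  have hacl : a * cos (l * ε) = cos ((l + 1) * ε) := by rw [ha]; field_simp
  have hn0 : (0 : ℝ) < 2 * l + 1 := by positivity
  -- condition (1)
  have hB : ∀ t ∈ Ioo 0 τ, 0 < sin (((l : ℝ) + 1) * t) + a * sin (l * t) := by
    intro t ht
    have ht0 := ht.1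
    have ht1 := ht.2
    have hid : (sin (((l : ℝ) + 1) * t) + a * sin (l * t)) * cos (l * ε) =
        2 * (sin ((2 * l + 1) * t / 2) * cos (t / 2) * cos ((2 * l + 1) * ε / 2) * cos (ε / 2) +
          cos ((2 * l + 1) * t / 2) * sin (t / 2) * sin ((2 * l + 1) * ε / 2) * sin (ε / 2)) := by
      have h1 : ((l : ℝ) + 1) * t = (2 * l + 1) * t / 2 + t / 2 := by ring
      have h2 : (l : ℝ) * t = (2 * l + 1) * t / 2 - t / 2 := by ring
      have h3 : ((l : ℝ) + 1) * ε = (2 * l + 1) * ε / 2 + ε / 2 := by ring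
      have h4 : (l : ℝ) * ε = (2 * l + 1) * ε / 2 - ε / 2 := by ring
      calc _ = sin (((l : ℝ) + 1) * t) * cos (l * ε) + (a * cos (l * ε)) * sin (l * t) := by ring
        _ = sin (((l : ℝ) + 1) * t) * cos (l * ε) + cos ((l + 1) * ε) * sin (l * t) := by rw [hacl]
        _ = _ := by
          rw [h1, h2, h3, h4, sin_add, sin_sub, cos_add, cos_sub]
          ring
    have hAπ : (2 * (l : ℝ) + 1) * t / 2 < π := by nlinarith
    have hA0 : 0 < (2 * (l : ℝ) + 1) * t / 2 := by positivity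
    have hsA : 0 < sin ((2 * l + 1) * t / 2) := sin_pos_of_pos_of_lt_pi hA0 hAπ
    have hB0 : 0 < sin (t / 2) := sin_pos_of_pos_of_lt_pi (by linarith) (by linarith)
    have hB1 : 0 < cos (t / 2) := cos_pos_of_mem_Ioo ⟨by linarith, by linarith⟩
    have hC : (2 * (l : ℝ) + 1) * ε / 2 < π / 2 := by nlinarith
    have hC' : 0 < (2 * (l : ℝ) + 1) * ε / 2 := by positivity
    have hC0 : 0 < sin ((2 * l + 1) * ε / 2) := sin_pos_of_pos_of_lt_pi hC' (by linarith)
    have hC1 : 0 < cos ((2 * l + 1) * ε / 2) := cos_pos_of_mem_Ioo ⟨by linarith, hC⟩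
    have hD0 : 0 < sin (ε / 2) := sin_pos_of_pos_of_lt_pi (by linarith) (by linarith)
    have hD1 : 0 < cos (ε / 2) := cos_pos_of_mem_Ioo ⟨by linarith, by linarith⟩
    have hX : 0 < sin ((2 * l + 1) * t / 2) * cos (t / 2) * cos ((2 * l + 1) * ε / 2) * cos (ε / 2) +
          cos ((2 * l + 1) * t / 2) * sin (t / 2) * sin ((2 * l + 1) * ε / 2) * sin (ε / 2) := by
      by_cases hc : (2 * (l : ℝ) + 1) * t / 2 ≤ π / 2
      · have : 0 ≤ cos ((2 * l + 1) * t / 2) := cos_nonneg_of_mem_Icc ⟨by linarith, hc⟩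
        positivity
      · push Not at hc
        set s := π - (2 * (l : ℝ) + 1) * t / 2 with hs
        have hσ : 0 < sin (φ / 2) := sin_pos_of_pos_of_lt_pi (by linarith) (by linarith)
        have hγ : 0 < cos (φ / 2) := cos_pos_of_mem_Ioo ⟨by linarith, by linarith⟩
        refine key_pos (s := s) (σ := sin (φ / 2)) (γ := cos (φ / 2)) (2 * l + 1) hn0
          (by rw [hs, sin_pi_sub]) (by rw [hs, cos_pi_sub, neg_neg]) (by rw [hs]; linarith)
          (by rw [hs]; linarith) hB0 hB1 hC0 hC1 hD0 hD1 hσ hγ ?_ ?_ ?_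
        · have h5 : 0 ≤ sin (φ / 2 - t / 2) :=
            sin_nonneg_of_nonneg_of_le_pi (by linarith) (by linarith)
          rw [sin_sub] at h5
          linarith
        · -- `n sin²(ε/2) < s sin φ`
          have h6 : 2 * sin (φ / 2) * cos (φ / 2) = sin φ := by
            rw [← sin_two_mul]; congr 1; ring
          rw [h6]
          have h7 : 1 - cos ε = 2 * sin (ε / 2) ^ 2 := by
            have := cos_two_mul (ε / 2)
            rw [show 2 * (ε / 2) = ε by ring] at this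
            have h8 := sin_sq_add_cos_sq (ε / 2)
            linarith
          have h9 : cos τ - cos φ = 2 * sin ((τ + φ) / 2) * sin ((φ - τ) / 2) := by
            rw [cos_sub_cos, show (τ - φ) / 2 = -((φ - τ) / 2) by ring, sin_neg]
            ring
          have h10 : sin ((τ + φ) / 2) ≤ sin φ :=
            sin_le_sin_of_le_of_le_pi_div_two (by linarith) hφ1.le (by linarith)
          have h11 : sin ((φ - τ) / 2) ≤ (φ - τ) / 2 := sin_le (by linarith)
          have h12 : 0 ≤ sin ((φ - τ) / 2) := sin_nonneg_of_nonneg_of_le_pi (by linarith)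
            (by linarith)
          have hsφ : 0 < sin φ := sin_pos_of_pos_of_lt_pi hφ0 (by linarith)
          have h13 : cos τ - cos φ ≤ sin φ * (φ - τ) := by
            rw [h9]
            have := mul_le_mul h10 h11 h12 hsφ.le
            linarith
          have h14 : 2 * sin (ε / 2) ^ 2 ≤ sin φ * (φ - τ) := by
            rw [← h7]
            have : cos τ - cos φ = 1 - cos ε := by rw [hcτ]; ring
            linarith
          have h15 : (2 * (l : ℝ) + 1) * (φ - τ) / 2 < s := by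
            rw [hs]
            nlinarith
          have h16 : (2 * (l : ℝ) + 1) * (2 * sin (ε / 2) ^ 2) ≤
              (2 * (l : ℝ) + 1) * (sin φ * (φ - τ)) := mul_le_mul_of_nonneg_left h14 hn0.le
          have h17 : (2 * (l : ℝ) + 1) * (φ - τ) / 2 * sin φ < s * sin φ :=
            mul_lt_mul_of_pos_right h15 hsφ
          nlinarith
        · have h18 : sin ε = 2 * sin (ε / 2) * cos (ε / 2) := by
            rw [← sin_two_mul]; congr 1; ring
          have h19 : sin (φ / 2) ≤ π / (2 * l + 1) := by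
            have := sin_le (x := φ / 2) (by linarith)
            have h20 : φ / 2 = π / (2 * l + 1) := by rw [hφ]; ring
            rwa [h20] at this ⊢
          have h21 : sin (φ / 2) ^ 2 ≤ (π / (2 * l + 1)) ^ 2 := pow_le_pow_left₀ hσ.le h19 2
          rw [h18] at hkey
          have h22 := mul_le_mul_of_nonneg_right h21 hC0.le
          nlinarith
    have h23 : 0 < (sin (((l : ℝ) + 1) * t) + a * sin (l * t)) * cos (l * ε) := by
      rw [hid]; linarith
    exact pos_of_mul_pos_left h23 hcl.le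
  -- condition (2)
  have hBt : ∀ t ∈ Ioc 0 ε, 0 < sin (((l : ℝ) + 1) * t) - a * sin (l * t) := by
    intro t ht
    have ht0 := ht.1
    have ht1 := ht.2
    have h1 : ((l : ℝ) + 1) * t ≤ (l + 1) * ε := by gcongr
    have h2 : sin (l * t) < sin ((l + 1) * t) :=
      sin_lt_sin_of_lt_of_le_pi_div_two (by
        have : 0 < (l : ℝ) * t := by positivity
        linarith) (by linarith) (by nlinarith)
    have h3 : 0 ≤ sin (l * t) := sin_nonneg_of_nonneg_of_le_pi (by positivity) (by nlinarith)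
    have h4 : a * sin (l * t) ≤ 1 * sin (l * t) := mul_le_mul_of_nonneg_right ha1 h3
    linarith
  have h := near (l := l) (a := a) (τ := τ) (ε := ε) hTR hTN hg (by omega) ha0 ha1
    (Or.inl (by omega)) hτ0 (by linarith) hB hε (by linarith) hBt (by rw [hcτ]; linarith)
    (by rw [hacl, sub_self])
  rw [hcτ] at h
  have h24 : cos ε + (1 + cos φ - cos ε) = 1 + cos φ := by ring
  rw [h24] at h
  exact h

/-- `x cos x ≥ 0.31 sin x` -/
theorem xcos_31 {x : ℝ} (h0 : 0 ≤ x) (h1 : x ≤ 1.3353) : 0.31 * sin x ≤ x * cos x := by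
  have h2 := cos_ge6 h0
  have h3 := sin_le5 h0
  have h4 : 0.31 * (x - x ^ 3 / 6 + x ^ 5 / 120) ≤
      x * (1 - x ^ 2 / 2 + x ^ 4 / 24 - x ^ 6 / 720) := by
    have h5 : 0 ≤ 0.69 - 0.44834 * x ^ 2 + 0.039 * x ^ 4 - x ^ 6 / 720 := by
      have h6 : 0 ≤ x ^ 2 := by positivity
      have h7 : x ^ 2 ≤ 1.7831 := by nlinarith
      have h8 : x ^ 6 = x ^ 2 * x ^ 2 * x ^ 2 := by ring
      have h9 : x ^ 4 = x ^ 2 * x ^ 2 := by ring
      rw [h8, h9]
      generalize x ^ 2 = y at *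
      have h10 : y * y * y ≤ 1.7831 * (y * y) := by nlinarith [mul_nonneg h6 h6]
      nlinarith [mul_nonneg h6 (sub_nonneg.2 h7)]
    have h6 := mul_nonneg h0 h5
    have h7 : 0 ≤ x ^ 3 := by positivity
    have h8 : 0 ≤ x ^ 5 := by positivity
    nlinarith
  have h5 := mul_le_mul_of_nonneg_left h2 h0
  linarith

/-- `x cos x ≥ 0.42 sin x` -/
theorem xcos_42 {x : ℝ} (h0 : 0 ≤ x) (h1 : x ≤ 1.225) : 0.42 * sin x ≤ x * cos x := by
  have h2 := cos_ge6 h0
  have h3 := sin_le5 h0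
  have h4 : 0.42 * (x - x ^ 3 / 6 + x ^ 5 / 120) ≤
      x * (1 - x ^ 2 / 2 + x ^ 4 / 24 - x ^ 6 / 720) := by
    have h5 : 0 ≤ 0.58 - 0.43 * x ^ 2 + 0.038 * x ^ 4 - x ^ 6 / 720 := by
      have h6 : 0 ≤ x ^ 2 := by positivity
      have h7 : x ^ 2 ≤ 1.50063 := by nlinarith
      have h8 : x ^ 6 = x ^ 2 * x ^ 2 * x ^ 2 := by ring
      have h9 : x ^ 4 = x ^ 2 * x ^ 2 := by ring
      rw [h8, h9]
      generalize x ^ 2 = y at *
      have h10 : y * y * y ≤ 1.50063 * (y * y) := by nlinarith [mul_nonneg h6 h6]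
      nlinarith [mul_nonneg h6 (sub_nonneg.2 h7)]
    have h6 := mul_nonneg h0 h5
    have h7 : 0 ≤ x ^ 3 := by positivity
    have h8 : 0 ≤ x ^ 5 := by positivity
    nlinarith
  have h5 := mul_le_mul_of_nonneg_left h2 h0
  linarith

theorem nf5a (hTR : TargetTR) (hTN : TargetTN) : TargetNF5a := by
  intro p hg ε hε hε'
  have hπ := pi_pos
  have hπ1 := pi_gt_d4
  have hπ2 := pi_lt_d4
  refine le_trans ?_ (neg_re_le _)
  refine near_odd (l := 3) hTR hTN (by norm_num) (by norm_num) hg hε (by push_cast; linarith) ?_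
  push_cast
  have hx0 : 0 ≤ (2 * 3 + 1) * ε / 2 := by positivity
  have h1 := xcos_42 hx0 (by linarith)
  have h2 := sin_ge3 hε.le
  have hC1 : 0 < cos ((2 * 3 + 1) * ε / 2) := cos_pos_of_mem_Ioo ⟨by linarith, by linarith⟩
  have hC0 : 0 ≤ sin ((2 * 3 + 1) * ε / 2) := sin_nonneg_of_nonneg_of_le_pi hx0 (by linarith)
  have h3 : 0.9795 * ε ≤ sin ε := by
    have : ε ^ 3 ≤ 0.1225 * ε := by
      have : ε ^ 2 ≤ 0.1225 := by nlinarith
      nlinarith
    linarith
  have h4 : (π / (2 * 3 + 1)) ^ 2 ≤ 0.20143 := by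
    have : (π / (2 * 3 + 1)) ≤ 0.4488 := by
      rw [div_le_iff₀ (by norm_num)]
      norm_num
      linarith
    have h5 : 0 ≤ π / (2 * 3 + 1) := by positivity
    nlinarith
  calc 4 * (π / (2 * 3 + 1)) ^ 2 * sin ((2 * 3 + 1) * ε / 2)
      ≤ 4 * 0.20143 * sin ((2 * 3 + 1) * ε / 2) := by gcongr
    _ ≤ 2 * 0.9795 * (0.42 * sin ((2 * 3 + 1) * ε / 2)) := by nlinarith
    _ ≤ 2 * 0.9795 * ((2 * 3 + 1) * ε / 2 * cos ((2 * 3 + 1) * ε / 2)) := by gcongr
    _ = (2 * 3 + 1) * (0.9795 * ε) * cos ((2 * 3 + 1) * ε / 2) := by ring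
    _ ≤ _ := by gcongr

/-- case (i) for `n ≥ 9` -/
theorem nfodd1 (hTR : TargetTR) (hTN : TargetTN) {N l : ℕ} {p : ℝ[X]} (hl : 4 ≤ l)
    (hN : N + 1 = 2 * l) (hg : Good N p) {ε : ℝ} (hε : 0 < ε)
    (hε' : (2 * (l : ℝ) + 1) * ε ≤ 0.85 * π) : RN N ≤ -(ev p (pt (π - ε))).re := by
  have hπ := pi_pos
  have hπ1 := pi_gt_d4
  have hπ2 := pi_lt_d4
  have hl' : (4 : ℝ) ≤ l := by exact_mod_cast hl
  have hε3 : ε ≤ 0.297 := by nlinarith
  refine near_odd (l := l) hTR hTN (by omega) hN hg hε (by linarith) ?_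
  have hx0 : 0 ≤ (2 * (l : ℝ) + 1) * ε / 2 := by positivity
  have h1 := xcos_31 hx0 (by linarith)
  have h2 := sin_ge3 hε.le
  have hC1 : 0 < cos ((2 * (l : ℝ) + 1) * ε / 2) := cos_pos_of_mem_Ioo ⟨by linarith, by linarith⟩
  have hC0 : 0 ≤ sin ((2 * (l : ℝ) + 1) * ε / 2) := sin_nonneg_of_nonneg_of_le_pi hx0 (by linarith)
  have h3 : 0.985 * ε ≤ sin ε := by
    have : ε ^ 3 ≤ 0.09 * ε := by
      have : ε ^ 2 ≤ 0.09 := by nlinarith
      nlinarith
    linarith
  have h4 : (π / (2 * (l : ℝ) + 1)) ^ 2 ≤ 0.1225 := by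
    have : (π / (2 * (l : ℝ) + 1)) ≤ 0.35 := by
      rw [div_le_iff₀ (by positivity)]
      nlinarith
    have h5 : 0 ≤ π / (2 * (l : ℝ) + 1) := by positivity
    nlinarith
  calc 4 * (π / (2 * (l : ℝ) + 1)) ^ 2 * sin ((2 * l + 1) * ε / 2)
      ≤ 4 * 0.1225 * sin ((2 * l + 1) * ε / 2) := by gcongr
    _ ≤ 2 * 0.985 * (0.31 * sin ((2 * l + 1) * ε / 2)) := by nlinarith
    _ ≤ 2 * 0.985 * ((2 * l + 1) * ε / 2 * cos ((2 * l + 1) * ε / 2)) := by gcongr
    _ = (2 * l + 1) * (0.985 * ε) * cos ((2 * l + 1) * ε / 2) := by ring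
    _ ≤ _ := by gcongr

/-- the comparison of cosines in case (ii) -/
theorem cos_cmp {l : ℕ} (hl : 4 ≤ l) {ε : ℝ} (hε : 0.85 * π ≤ (2 * (l : ℝ) + 1) * ε)
    (hε' : ε ≤ π) :
    cos ε + cos (π / ((l : ℝ) + 1)) ≤ 1 + cos (2 * π / (2 * (l : ℝ) + 1)) := by
  have hπ := pi_pos
  have hπ1 := pi_gt_d4
  have hπ2 := pi_lt_d4
  have hl' : (4 : ℝ) ≤ l := by exact_mod_cast hl
  have hn0 : (0 : ℝ) < 2 * l + 1 := by positivity
  set y := 0.85 * π / (2 * (l : ℝ) + 1) with hy
  have hy0 : 0 < y := by positivity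
  have hyε : y ≤ ε := by rw [hy, div_le_iff₀ hn0]; linarith
  have h1 : cos ε ≤ cos y := cos_le_cos_of_nonneg_of_le_pi hy0.le hε' hyε
  rcases Nat.lt_or_ge 4 l with h | h
  · -- `n ≥ 11`
    have hl5 : (5 : ℝ) ≤ l := by exact_mod_cast h
    have h2 := cos_le4 hy0.le
    have hny : (2 * (l : ℝ) + 1) * y = 0.85 * π := by rw [hy]; field_simp
    have hy1 : y ≤ 0.243 := by nlinarith
    have h3 : y ^ 2 ≤ 0.06 := by nlinarith
    have h4 : cos y ≤ 1 - 0.4975 * y ^ 2 := by
      have h5 : y ^ 4 = y ^ 2 * y ^ 2 := by ring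
      have h6 : 0 ≤ y ^ 2 := by positivity
      nlinarith
    have h7 : cos (π / ((l : ℝ) + 1)) - cos (2 * π / (2 * (l : ℝ) + 1)) ≤
        (π / (2 * (l : ℝ) + 1)) ^ 2 * 0.359 := by
      have h8 : cos (π / ((l : ℝ) + 1)) - cos (2 * π / (2 * (l : ℝ) + 1)) =
          2 * sin ((π / ((l : ℝ) + 1) + 2 * π / (2 * (l : ℝ) + 1)) / 2) *
            sin ((2 * π / (2 * (l : ℝ) + 1) - π / ((l : ℝ) + 1)) / 2) := by
        rw [cos_sub_cos, show (π / ((l : ℝ) + 1) - 2 * π / (2 * (l : ℝ) + 1)) / 2 =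
          -((2 * π / (2 * (l : ℝ) + 1) - π / ((l : ℝ) + 1)) / 2) by ring, sin_neg]
        ring
      have h9 : π / ((l : ℝ) + 1) < 2 * π / (2 * (l : ℝ) + 1) := by
        rw [div_lt_div_iff₀ (by positivity) (by positivity)]
        nlinarith
      have h10 : 2 * π / (2 * (l : ℝ) + 1) < π := by
        rw [div_lt_iff₀ (by positivity)]
        nlinarith
      have h11 : 0 < π / ((l : ℝ) + 1) := by positivity
      have h12 := sin_le (x := (π / ((l : ℝ) + 1) + 2 * π / (2 * (l : ℝ) + 1)) / 2) (by positivity)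
      have h13 := sin_le (x := (2 * π / (2 * (l : ℝ) + 1) - π / ((l : ℝ) + 1)) / 2) (by linarith)
      have h14 : 0 ≤ sin ((2 * π / (2 * (l : ℝ) + 1) - π / ((l : ℝ) + 1)) / 2) :=
        sin_nonneg_of_nonneg_of_le_pi (by linarith) (by linarith)
      rw [h8]
      calc _ ≤ 2 * ((π / ((l : ℝ) + 1) + 2 * π / (2 * (l : ℝ) + 1)) / 2) *
            ((2 * π / (2 * (l : ℝ) + 1) - π / ((l : ℝ) + 1)) / 2) := by
            apply mul_le_mul _ h13 h14 (by positivity)
            linarith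
        _ = (π / (2 * (l : ℝ) + 1)) ^ 2 * ((4 * l + 3) / (2 * (l + 1) ^ 2)) := by
            field_simp
            ring
        _ ≤ _ := by
            apply mul_le_mul_of_nonneg_left _ (by positivity)
            rw [div_le_iff₀ (by positivity)]
            nlinarith
    have h15 : (π / (2 * (l : ℝ) + 1)) ^ 2 * 0.359 ≤ 0.4975 * y ^ 2 := by
      have h16 : y ^ 2 = 0.7225 * (π / (2 * (l : ℝ) + 1)) ^ 2 := by
        rw [hy]; ring
      rw [h16]
      have : 0 ≤ (π / (2 * (l : ℝ) + 1)) ^ 2 := by positivity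
      nlinarith
    linarith
  · -- `n = 9`
    have h4 : l = 4 := le_antisymm h hl
    subst h4
    push_cast at hy ⊢
    have h2 : cos y ≤ 0.95634 := by
      have h3 : cos y ≤ cos 0.2966 := by
        apply cos_le_cos_of_nonneg_of_le_pi (by norm_num) (by linarith)
        rw [hy, le_div_iff₀ (by norm_num)]
        linarith
      have h4 := cos_le4 (x := 0.2966) (by norm_num)
      norm_num at h4 h3 ⊢
      linarith
    have h5 : 0.76599 ≤ cos (2 * π / (2 * 4 + 1)) := by
      have h3 : cos 0.6982 ≤ cos (2 * π / (2 * 4 + 1)) := by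
        apply cos_le_cos_of_nonneg_of_le_pi (by positivity) (by linarith)
        rw [div_le_iff₀ (by norm_num)]
        linarith
      have h4 := cos_ge6 (x := 0.6982) (by norm_num)
      norm_num at h4 h3 ⊢
      linarith
    have h6 : cos (π / (4 + 1)) ≤ 0.80902 := by
      rw [show (4 : ℝ) + 1 = 5 by norm_num, cos_pi_div_five]
      have : √5 ≤ 2.23607 := by
        rw [Real.sqrt_le_left (by norm_num)]
        norm_num
      linarith
    linarith

theorem nfodd (hTR : TargetTR) (hTN : TargetTN) : TargetNFodd := by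
  intro N p hN hodd hg ε hε hε'
  have hπ := pi_pos
  obtain ⟨m, hm⟩ := hodd
  refine le_trans ?_ (neg_re_le _)
  set l := m + 1 with hl
  have hNl : N + 1 = 2 * l := by omega
  have hl4 : 4 ≤ l := by omega
  have hl' : (4 : ℝ) ≤ l := by exact_mod_cast hl4
  have hNl' : (N : ℝ) + 1 = 2 * l := by exact_mod_cast hNl
  rw [le_div_iff₀ (by positivity)] at hε'
  have hle : ((l : ℝ) + 1) * ε ≤ π / 2 := by nlinarith
  by_cases h : (2 * (l : ℝ) + 1) * ε ≤ 0.85 * π
  · exact nfodd1 hTR hTN hl4 hNl hg hε h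
  · push Not at h
    have hε2 : ε < π / 2 := by nlinarith
    have hc1 : 0 < cos ε := cos_pos_of_mem_Ioo ⟨by linarith, hε2⟩
    have hτ1 : π / ((l : ℝ) + 1) ≤ π / 2 := by
      apply div_le_div_of_nonneg_left hπ.le (by norm_num)
      linarith
    have hc2 : 0 ≤ cos (π / ((l : ℝ) + 1)) :=
      cos_nonneg_of_mem_Icc ⟨by have : 0 < π / ((l : ℝ) + 1) := by positivity
                                linarith, hτ1⟩
    have h1 := near (l := l) (a := 0) (τ := π / ((l : ℝ) + 1)) (ε := ε) hTR hTN hg (by omega) le_rfl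
      zero_le_one (Or.inr ⟨rfl, by omega⟩) (by positivity) (by linarith)
      (B0_pos l) hε (by linarith) (Bt0_pos (by linarith)) (by linarith) (by
        rw [zero_mul, sub_zero]
        exact cos_nonneg_of_mem_Icc ⟨by nlinarith, by linarith⟩)
    refine le_trans ?_ h1
    rw [RN_eq, show (N : ℝ) + 2 = 2 * l + 1 by linarith]
    apply one_div_le_one_div_of_le
    · linarith
    · have := cos_cmp hl4 h.le (by linarith)
      linarith

end Pool.Agent.H48.KP
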