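import Mathlib

/-! Taylor bounds for sine and cosine on the half line. -/

set_option autoImplicit false

namespace Pool.Agent.H48.KP

open Real Set

theorem le_of_deriv_le {f g f' g' : ℝ → ℝ} (hf : ∀ x, HasDerivAt f (f' x) x)
    (hg : ∀ x, HasDerivAt g (g' x) x) (h0 : f 0 ≤ g 0) (h : ∀ x, 0 ≤ x → f' x ≤ g' x)
    {x : ℝ} (hx : 0 ≤ x) : f x ≤ g x := by
  have hd : ∀ x, HasDerivAt (fun x => g x - f x) (g' x - f' x) x := fun x => (hg x).sub (hf x)
  have hm : MonotoneOn (fun x => g x - f x) (Ici 0) := by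
    refine monotoneOn_of_deriv_nonneg (convex_Ici 0)
      (fun x _ => (hd x).continuousAt.continuousWithinAt)
      (fun x _ => (hd x).differentiableAt.differentiableWithinAt) ?_
    intro x hx
    rw [interior_Ici] at hx
    rw [(hd x).deriv]
    have := h x (le_of_lt hx)
    linarith
  have := hm (by simp) (by simpa using hx) hx
  simp only at this
  linarith

theorem sin_le1 {x : ℝ} (hx : 0 ≤ x) : sin x ≤ x := sin_le hx

theorem cos_ge2 {x : ℝ} : 1 - x ^ 2 / 2 ≤ cos x := one_sub_sq_div_two_le_cos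

theorem sin_ge3 {x : ℝ} (hx : 0 ≤ x) : x - x ^ 3 / 6 ≤ sin x :=
  le_of_deriv_le (f := fun x => x - x ^ 3 / 6) (f' := fun x => 1 - x ^ 2 / 2) (g' := cos)
    (fun x => ((hasDerivAt_id x).sub (((hasDerivAt_id x).pow 3).div_const 6)).congr_deriv (by
      simp; ring)) hasDerivAt_sin (by simp) (fun x _ => cos_ge2) hx

theorem cos_le4 {x : ℝ} (hx : 0 ≤ x) : cos x ≤ 1 - x ^ 2 / 2 + x ^ 4 / 24 :=
  le_of_deriv_le (f := cos) (g := fun x => 1 - x ^ 2 / 2 + x ^ 4 / 24) (f' := fun x => -sin x)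
    (g' := fun x => -(x - x ^ 3 / 6)) hasDerivAt_cos
    (fun x => ((((hasDerivAt_id x).pow 2).div_const 2).const_sub 1 |>.add
      (((hasDerivAt_id x).pow 4).div_const 24)).congr_deriv (by simp; ring)) (by simp)
    (fun x hx => by have := sin_ge3 hx; linarith) hx

theorem sin_le5 {x : ℝ} (hx : 0 ≤ x) : sin x ≤ x - x ^ 3 / 6 + x ^ 5 / 120 :=
  le_of_deriv_le (f := sin) (g := fun x => x - x ^ 3 / 6 + x ^ 5 / 120) (f' := cos)
    (g' := fun x => 1 - x ^ 2 / 2 + x ^ 4 / 24) hasDerivAt_sin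
    (fun x => (((hasDerivAt_id x).sub (((hasDerivAt_id x).pow 3).div_const 6)).add
      (((hasDerivAt_id x).pow 5).div_const 120)).congr_deriv (by simp; ring)) (by simp)
    (fun x hx => cos_le4 hx) hx

theorem cos_ge6 {x : ℝ} (hx : 0 ≤ x) : 1 - x ^ 2 / 2 + x ^ 4 / 24 - x ^ 6 / 720 ≤ cos x :=
  le_of_deriv_le (g := cos) (f := fun x => 1 - x ^ 2 / 2 + x ^ 4 / 24 - x ^ 6 / 720)
    (g' := fun x => -sin x) (f' := fun x => -(x - x ^ 3 / 6 + x ^ 5 / 120))
    (fun x => (((((hasDerivAt_id x).pow 2).div_const 2).const_sub 1 |>.add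
      (((hasDerivAt_id x).pow 4).div_const 24)).sub
      (((hasDerivAt_id x).pow 6).div_const 720)).congr_deriv (by simp; ring)) hasDerivAt_cos
    (by simp) (fun x hx => by have := sin_le5 hx; linarith) hx

theorem sin_ge7 {x : ℝ} (hx : 0 ≤ x) : x - x ^ 3 / 6 + x ^ 5 / 120 - x ^ 7 / 5040 ≤ sin x :=
  le_of_deriv_le (g := sin) (f := fun x => x - x ^ 3 / 6 + x ^ 5 / 120 - x ^ 7 / 5040)
    (g' := cos) (f' := fun x => 1 - x ^ 2 / 2 + x ^ 4 / 24 - x ^ 6 / 720)
    (fun x => ((((hasDerivAt_id x).sub (((hasDerivAt_id x).pow 3).div_const 6)).add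
      (((hasDerivAt_id x).pow 5).div_const 120)).sub
      (((hasDerivAt_id x).pow 7).div_const 5040)).congr_deriv (by simp; ring)) hasDerivAt_sin
    (by simp) (fun x hx => cos_ge6 hx) hx

theorem cos_le8 {x : ℝ} (hx : 0 ≤ x) :
    cos x ≤ 1 - x ^ 2 / 2 + x ^ 4 / 24 - x ^ 6 / 720 + x ^ 8 / 40320 :=
  le_of_deriv_le (f := cos) (g := fun x => 1 - x ^ 2 / 2 + x ^ 4 / 24 - x ^ 6 / 720 + x ^ 8 / 40320)
    (f' := fun x => -sin x) (g' := fun x => -(x - x ^ 3 / 6 + x ^ 5 / 120 - x ^ 7 / 5040))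
    hasDerivAt_cos
    (fun x => ((((((hasDerivAt_id x).pow 2).div_const 2).const_sub 1 |>.add
      (((hasDerivAt_id x).pow 4).div_const 24)).sub
      (((hasDerivAt_id x).pow 6).div_const 720)).add
      (((hasDerivAt_id x).pow 8).div_const 40320)).congr_deriv (by simp; ring))
    (by simp) (fun x hx => by have := sin_ge7 hx; linarith) hx

theorem sin_le9 {x : ℝ} (hx : 0 ≤ x) :
    sin x ≤ x - x ^ 3 / 6 + x ^ 5 / 120 - x ^ 7 / 5040 + x ^ 9 / 362880 :=
  le_of_deriv_le (f := sin)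
    (g := fun x => x - x ^ 3 / 6 + x ^ 5 / 120 - x ^ 7 / 5040 + x ^ 9 / 362880)
    (f' := cos) (g' := fun x => 1 - x ^ 2 / 2 + x ^ 4 / 24 - x ^ 6 / 720 + x ^ 8 / 40320)
    hasDerivAt_sin
    (fun x => (((((hasDerivAt_id x).sub (((hasDerivAt_id x).pow 3).div_const 6)).add
      (((hasDerivAt_id x).pow 5).div_const 120)).sub
      (((hasDerivAt_id x).pow 7).div_const 5040)).add
      (((hasDerivAt_id x).pow 9).div_const 362880)).congr_deriv (by simp; ring))
    (by simp) (fun x hx => cos_le8 hx) hx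

theorem cos_ge10 {x : ℝ} (hx : 0 ≤ x) :
    1 - x ^ 2 / 2 + x ^ 4 / 24 - x ^ 6 / 720 + x ^ 8 / 40320 - x ^ 10 / 3628800 ≤ cos x :=
  le_of_deriv_le (g := cos)
    (f := fun x => 1 - x ^ 2 / 2 + x ^ 4 / 24 - x ^ 6 / 720 + x ^ 8 / 40320 - x ^ 10 / 3628800)
    (g' := fun x => -sin x)
    (f' := fun x => -(x - x ^ 3 / 6 + x ^ 5 / 120 - x ^ 7 / 5040 + x ^ 9 / 362880))
    (fun x => (((((((hasDerivAt_id x).pow 2).div_const 2).const_sub 1 |>.add
      (((hasDerivAt_id x).pow 4).div_const 24)).sub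
      (((hasDerivAt_id x).pow 6).div_const 720)).add
      (((hasDerivAt_id x).pow 8).div_const 40320)).sub
      (((hasDerivAt_id x).pow 10).div_const 3628800)).congr_deriv (by simp; ring))
    hasDerivAt_cos
    (by simp) (fun x hx => by have := sin_le9 hx; linarith) hx

end Pool.Agent.H48.KP
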